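import Mathlib

set_option autoImplicit false
open Set Metric Filter Topology
open scoped ENNReal

namespace Pool.Agent.H.MP_3c459d_an

abbrev E := EuclideanSpace ℂ (Fin 3)

noncomputable def lempert (D : Set E) (z w : E) : ℝ≥0∞ :=
  ⨅ (f : ℂ → E) (_ : DifferentiableOn ℂ f (ball 0 1)) (_ : MapsTo f (ball 0 1) D) (a : ℂ) (b : ℂ)
    (_ : ‖a‖ < 1) (_ : ‖b‖ < 1) (_ : f a = z) (_ : f b = w),
    ENNReal.ofReal (Real.artanh ‖(a - b) / (1 - (starRingEnd ℂ) a * b)‖)

noncomputable def kob (D : Set E) (z w : E) : ℝ≥0∞ :=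
  ⨅ (n : ℕ) (x : ℕ → E) (_ : x 0 = z) (_ : x (n + 1) = w),
    ∑ i ∈ Finset.range (n + 1), lempert D (x i) (x (i + 1))

noncomputable def mon (k : ℕ) (z : E) : ℂ := z 0 ^ k ^ 3 * z 1 ^ k ^ 2 * z 2

def D : Set E := {z | ‖z 0‖ < 1 ∧ ∀ k : ℕ, 1 ≤ k → ‖mon k z‖ < Real.exp k}

lemma co_diff (i : Fin 3) : Differentiable ℂ (fun z : E => z i) :=
  (EuclideanSpace.proj i : E →L[ℂ] ℂ).differentiable

lemma mon_diff (k : ℕ) : Differentiable ℂ (mon k) :=
  (((co_diff 0).pow _).mul ((co_diff 1).pow _)).mul (co_diff 2)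

lemma norm_mon (k : ℕ) (z : E) : ‖mon k z‖ = ‖z 0‖ ^ k ^ 3 * ‖z 1‖ ^ k ^ 2 * ‖z 2‖ := by
  simp [mon]

lemma D_mono {z w : E} (hz : z ∈ D) (h : ∀ i, ‖w i‖ ≤ ‖z i‖) : w ∈ D := by
  refine ⟨(h 0).trans_lt hz.1, fun k hk => lt_of_le_of_lt ?_ (hz.2 k hk)⟩
  rw [norm_mon, norm_mon]
  have := h 0; have := h 1; have := h 2
  gcongr

lemma D_open : IsOpen D := by
  refine isOpen_iff_mem_nhds.2 fun z hz => ?_
  obtain ⟨r, hr0, hr1⟩ := exists_between hz.1
  have r0 : 0 ≤ r := (norm_nonneg _).trans hr0.le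
  set M := ‖z 1‖ + ‖z 2‖ + 1 with hM
  have M1 : 1 ≤ M := by have := norm_nonneg (z 1); have := norm_nonneg (z 2); linarith
  obtain ⟨N, hN⟩ := exists_pow_lt_of_lt_one (show 0 < 1 / M ^ 2 by positivity) hr1
  have c : ∀ i, Continuous fun w : E => ‖w i‖ := fun i => (co_diff i).continuous.norm
  have e0 := (c 0).continuousAt.eventually_lt continuousAt_const hr0
  have e1 := (c 1).continuousAt.eventually_lt continuousAt_const
    (show ‖z 1‖ < M by have := norm_nonneg (z 2); linarith)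
  have e2 := (c 2).continuousAt.eventually_lt continuousAt_const
    (show ‖z 2‖ < M by have := norm_nonneg (z 1); linarith)
  have e3 : ∀ᶠ w in 𝓝 z, ∀ k ∈ Finset.range N, 1 ≤ k → ‖mon k w‖ < Real.exp k := by
    refine (Finset.eventually_all _).2 fun k _ => ?_
    by_cases hk : 1 ≤ k
    · exact ((mon_diff k).continuous.norm.continuousAt.eventually_lt continuousAt_const
        (hz.2 k hk)).mono fun w h _ => h
    · exact Eventually.of_forall fun w h => absurd h hk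
  filter_upwards [e0, e1, e2, e3] with w h0 h1 h2 h3
  refine ⟨h0.trans hr1, fun k hk => ?_⟩
  by_cases hkN : k < N
  · exact h3 k (Finset.mem_range.2 hkN) hk
  have a1 : r ^ k * M ^ 2 ≤ 1 := by
    have : r ^ k ≤ r ^ N := pow_le_pow_of_le_one r0 hr1.le (by omega)
    rw [lt_div_iff₀ (by positivity)] at hN
    nlinarith [pow_pos (show 0 < M by linarith) 2]
  have a2 : M ≤ M ^ k ^ 2 := le_self_pow₀ M1 (by positivity)
  calc ‖mon k w‖ ≤ r ^ k ^ 3 * M ^ k ^ 2 * M ^ k ^ 2 := by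
        rw [norm_mon]
        have := h2.le.trans a2
        gcongr
    _ = (r ^ k * M ^ 2) ^ k ^ 2 := by ring_nf
    _ ≤ 1 := pow_le_one₀ (by positivity) a1
    _ < Real.exp k := Real.one_lt_exp_iff.2 (by exact_mod_cast hk)

lemma zero_mem : (0 : E) ∈ D :=
  ⟨by simp, fun k _ => by simpa [mon] using Real.exp_pos _⟩

lemma D_conn : IsConnected D := by
  refine (StarConvex.isPathConnected (fun z hz a b ha hb hab => D_mono hz fun i => ?_)
    zero_mem).isConnected
  simp only [smul_zero, zero_add, PiLp.smul_apply, norm_smul, Real.norm_eq_abs, abs_of_nonneg hb]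
  exact mul_le_of_le_one_left (norm_nonneg _) (by linarith)

lemma bd {K : Set E} (hK : IsCompact K) {g : E → ℝ} (hg : Continuous g) {c : ℝ}
    (h : ∀ w ∈ K, g w < c) : ∃ M < c, ∀ w ∈ K, g w ≤ M := by
  rcases K.eq_empty_or_nonempty with rfl | hne
  · exact ⟨c - 1, by linarith, by simp⟩
  obtain ⟨x, hx, hm⟩ := hK.exists_isMaxOn hne hg.continuousOn
  exact ⟨g x, h x hx, fun w hw => hm hw⟩

lemma hull (K : Set E) (hKD : K ⊆ D) (hK : IsCompact K) :
    IsCompact {z ∈ D | ∀ f : E → ℂ, DifferentiableOn ℂ f D → ∀ M : ℝ, (∀ w ∈ K, ‖f w‖ ≤ M) →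
      ‖f z‖ ≤ M} := by
  set H := {z ∈ D | ∀ f : E → ℂ, DifferentiableOn ℂ f D → ∀ M : ℝ, (∀ w ∈ K, ‖f w‖ ≤ M) →
      ‖f z‖ ≤ M} with hH
  have key : ∀ z ∈ closure H, ∀ f : E → ℂ, DifferentiableOn ℂ f D → ContinuousAt f z →
      ∀ M : ℝ, (∀ w ∈ K, ‖f w‖ ≤ M) → ‖f z‖ ≤ M := fun z hz f hf hc M hM =>
    ContinuousWithinAt.closure_le hz hc.norm.continuousWithinAt continuousWithinAt_const
      fun y hy => hy.2 f hf M hM
  have cl : closure H ⊆ D := fun z hz => by
    obtain ⟨r, hr, h⟩ := bd hK (co_diff 0).continuous.norm fun w hw => (hKD hw).1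
    refine ⟨(key z hz _ (co_diff 0).differentiableOn (co_diff 0).continuous.continuousAt r h).trans_lt
      hr, fun k hk => ?_⟩
    obtain ⟨r, hr, h⟩ := bd hK (mon_diff k).continuous.norm fun w hw => (hKD hw).2 k hk
    exact (key z hz _ (mon_diff k).differentiableOn (mon_diff k).continuous.continuousAt r h).trans_lt hr
  refine Metric.isCompact_of_isClosed_isBounded (isClosed_of_closure_subset fun z hz =>
    ⟨cl hz, fun f hf => key z hz f hf (hf.continuousOn.continuousAt (D_open.mem_nhds (cl hz)))⟩) ?_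
  obtain ⟨R, hR⟩ := hK.isBounded.exists_norm_le
  refine isBounded_iff_forall_norm_le.2 ⟨√(3 * R ^ 2), fun z hz => ?_⟩
  have b : ∀ i, ‖z i‖ ≤ R := fun i => hz.2 _ (co_diff i).differentiableOn R fun w hw =>
    (PiLp.norm_apply_le w i).trans (hR w hw)
  rw [EuclideanSpace.norm_eq, Fin.sum_univ_three]
  have := pow_le_pow_left₀ (norm_nonneg _) (b 0) 2
  have := pow_le_pow_left₀ (norm_nonneg _) (b 1) 2
  have := pow_le_pow_left₀ (norm_nonneg _) (b 2) 2
  exact Real.sqrt_le_sqrt (by linarith)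

lemma art {s : ℝ} (hs : 0 < s) : Real.artanh (Real.exp (-s)) ≤ 1 / 2 * Real.log (2 / s + 2) := by
  have t0 := Real.exp_pos (-s)
  have t1 : Real.exp (-s) * (1 + s) ≤ 1 := by
    have := Real.add_one_le_exp s
    calc Real.exp (-s) * (1 + s) ≤ Real.exp (-s) * Real.exp s := by gcongr; linarith
      _ = 1 := by rw [← Real.exp_add]; simp
  have t2 : Real.exp (-s) < 1 := by nlinarith
  rw [Real.artanh_eq_half_log ⟨by linarith, t2.le⟩]
  have h1 : 0 < 1 - Real.exp (-s) := by linarith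
  gcongr
  rw [div_le_iff₀ h1]
  have : (2 / s + 2) * (1 - Real.exp (-s)) = 2 * ((1 + s) - Real.exp (-s) * (1 + s)) / s := by
    field_simp
  rw [this, le_div_iff₀ hs]
  nlinarith

noncomputable def x1 (k : ℝ) : ℝ := -(1 / k ^ 2 + 1 / (2 * k ^ 4))

noncomputable def pt (k : ℝ) (c : ℂ) : E := !₂[(Real.exp (x1 k) : ℂ), (Real.exp (2 / k) : ℂ), c]

lemma ineq (j k : ℕ) (hj : 1 ≤ j) (hk : 1 ≤ k) :
    (j : ℝ) ^ 3 * x1 k + j ^ 2 * (2 / k) + 1 / (2 * k) ≤ j := by
  have k0 : (0 : ℝ) < k := by exact_mod_cast hk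
  have h : (k : ℝ) ^ 3 ≤ 2 * j * k ^ 2 * (k - j) ^ 2 + j ^ 3 := by
    have j1 : (1 : ℝ) ≤ j := by exact_mod_cast hj
    rcases le_or_gt k j with h | h
    · have : (k : ℝ) ^ 3 ≤ j ^ 3 := by gcongr
      have : (0 : ℝ) ≤ 2 * j * k ^ 2 * (k - j) ^ 2 := by positivity
      linarith
    · have d1 : (1 : ℝ) ≤ k - j := by
        have : (j : ℝ) + 1 ≤ k := by exact_mod_cast h
        linarith
      have : (k : ℝ) ≤ 2 * j * (k - j) ^ 2 := by nlinarith [mul_nonneg (sub_nonneg.2 j1) (sub_nonneg.2 d1)]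
      have := mul_le_mul_of_nonneg_left this (sq_nonneg (k : ℝ))
      have : (0 : ℝ) ≤ j ^ 3 := by positivity
      nlinarith
  have e : (j : ℝ) - (j ^ 3 * x1 k + j ^ 2 * (2 / k) + 1 / (2 * k)) =
      (2 * j * k ^ 2 * (k - j) ^ 2 + j ^ 3 - k ^ 3) / (2 * k ^ 4) := by
    unfold x1; field_simp; ring
  have : 0 ≤ (2 * (j : ℝ) * k ^ 2 * (k - j) ^ 2 + j ^ 3 - k ^ 3) / (2 * k ^ 4) :=
    div_nonneg (by linarith) (by positivity)
  linarith

lemma x1_neg {k : ℝ} (hk : 0 < k) : x1 k < 0 := by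
  unfold x1; have : 0 < 1 / k ^ 2 + 1 / (2 * k ^ 4) := by positivity
  linarith

lemma pt_mem (k : ℕ) (hk : 1 ≤ k) {c : ℂ} (hc : ‖c‖ < Real.exp (1 / (2 * k))) : pt k c ∈ D := by
  have k0 : (0 : ℝ) < k := by exact_mod_cast hk
  refine ⟨by simpa [pt] using x1_neg k0, fun j hj => ?_⟩
  have e : ‖mon j (pt k c)‖ = Real.exp (j ^ 3 * x1 k + j ^ 2 * (2 / k)) * ‖c‖ := by
    rw [norm_mon, Real.exp_add, ← Nat.cast_pow, ← Nat.cast_pow, Real.exp_nat_mul, Real.exp_nat_mul]
    simp only [pt, PiLp.toLp_apply, Matrix.cons_val_zero, Matrix.cons_val_one, Matrix.cons_val,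
      Complex.norm_real, Real.norm_eq_abs, abs_of_pos (Real.exp_pos _)]
  rw [e]
  refine (mul_lt_mul_of_pos_left hc (Real.exp_pos _)).trans_le ?_
  rw [← Real.exp_add]
  exact Real.exp_le_exp.2 (ineq j k hj hk)

lemma lem_le {z w : E} {f : ℂ → E} (hf : Differentiable ℂ f) (hm : MapsTo f (ball 0 1) D) {s : ℝ}
    (hs : 0 < s) (h0 : f 0 = z) (h1 : f (Real.exp (-s)) = w) :
    lempert D z w ≤ ENNReal.ofReal (1 / 2 * Real.log (2 / s + 2)) := by
  have hb : ‖(Real.exp (-s) : ℂ)‖ = Real.exp (-s) := by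
    rw [Complex.norm_real, Real.norm_eq_abs, abs_of_pos (Real.exp_pos _)]
  refine iInf_le_of_le f <| iInf_le_of_le hf.differentiableOn <| iInf_le_of_le hm <|
    iInf_le_of_le 0 <| iInf_le_of_le _ <| iInf_le_of_le (by simp) <|
    iInf_le_of_le (by rw [hb]; exact Real.exp_lt_one_iff.2 (by linarith)) <| iInf_le_of_le h0 <|
    iInf_le_of_le h1 <| ENNReal.ofReal_le_ofReal ?_
  rw [map_zero, zero_mul, sub_zero, div_one, zero_sub, norm_neg, hb]
  exact art hs

lemma kob_le (k : ℕ) (hk : 1 ≤ k) :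
    kob D 0 (pt k 1) ≤ ENNReal.ofReal (1 / 2 * Real.log (24 * k ^ 3)) := by
  have k1 : (1 : ℝ) ≤ k := by exact_mod_cast hk
  have a : lempert D 0 (pt k 0) ≤ _ := lem_le
    (f := fun l => l • (!₂[1, (Real.exp (2 / k - x1 k) : ℂ), 0] : E)) (by fun_prop)
    (fun l hl => ⟨by simpa using hl, fun j _ => by simpa [mon] using Real.exp_pos _⟩)
    (neg_pos.2 (x1_neg (show (0 : ℝ) < k by linarith))) (by simp) (by
      ext i; fin_cases i <;> simp [pt, ← Complex.exp_add])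
  have b : lempert D (pt k 0) (pt k 1) ≤ _ := lem_le
    (f := fun l => pt k 0 + l • (!₂[0, 0, (Real.exp (1 / (2 * k)) : ℂ)] : E)) (by fun_prop)
    (fun l hl => by
      have e : pt k 0 + l • (!₂[0, 0, (Real.exp (1 / (2 * k)) : ℂ)] : E) =
          pt k (l * (Real.exp (1 / (2 * k)) : ℂ)) := by
        ext i; fin_cases i <;> simp [pt]
      simp only [e]
      refine pt_mem k hk ?_
      rw [norm_mul, Complex.norm_real, Real.norm_eq_abs, abs_of_pos (Real.exp_pos _)]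
      exact mul_lt_of_lt_one_left (Real.exp_pos _) (mem_ball_zero_iff.1 hl))
    (show (0 : ℝ) < 1 / (2 * k) by positivity) (by simp) (by
      ext i; fin_cases i <;> simp [pt, ← Complex.exp_add])
  refine iInf_le_of_le 1 <| iInf_le_of_le (fun i => if i = 0 then 0 else if i = 1 then pt k 0
    else pt k 1) <| iInf_le_of_le (by simp) <| iInf_le_of_le (by simp) ?_
  simp only [Finset.sum_range_succ, Finset.range_zero, Finset.sum_empty, zero_add, if_true,
    one_ne_zero, if_false, Nat.reduceAdd, OfNat.ofNat_ne_zero, OfNat.ofNat_ne_one]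
  have p1 : 0 < 2 / -x1 k := div_pos two_pos (neg_pos.2 (x1_neg (by linarith)))
  have p2 : (0 : ℝ) < 2 / (1 / (2 * k)) := by positivity
  refine (add_le_add a b).trans ?_
  rw [← ENNReal.ofReal_add (by have := Real.log_nonneg (show 1 ≤ 2 / -x1 k + 2 by linarith); linarith)
    (by have := Real.log_nonneg (show (1 : ℝ) ≤ 2 / (1 / (2 * k)) + 2 by linarith); linarith),
    ← mul_add, ← Real.log_mul (by linarith) (by linarith)]
  refine ENNReal.ofReal_le_ofReal ?_
  have q1 : 2 / -x1 k ≤ 2 * k ^ 2 := by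
    rw [div_le_iff₀ (neg_pos.2 (x1_neg (by linarith)))]
    have : 2 * (k : ℝ) ^ 2 * -x1 k = 2 + 1 / k ^ 2 := by unfold x1; field_simp
    rw [this]
    have : (0 : ℝ) < 1 / k ^ 2 := by positivity
    linarith
  have q2 : (2 : ℝ) / (1 / (2 * k)) = 4 * k := by field_simp; ring
  refine mul_le_mul_of_nonneg_left (Real.log_le_log (by positivity) ?_) (by norm_num)
  calc (2 / -x1 k + 2) * (2 / (1 / (2 * k)) + 2) ≤ (4 * k ^ 2) * (6 * k) := by
        rw [q2]; gcongr <;> nlinarith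
    _ = 24 * k ^ 3 := by ring

lemma one_not : (!₂[1, 1, 1] : E) ∉ D := fun h => by simpa using h.1

lemma inf_le (k : ℕ) (hk : 1 ≤ k) :
    0 < infDist (pt k 1) (frontier D) ∧ infDist (pt k 1) (frontier D) ≤ 1 / (2 * k ^ 4) := by
  have k0 : (0 : ℝ) < k := by exact_mod_cast hk
  have m : pt k 1 ∈ D := pt_mem k hk (by simp; positivity)
  obtain ⟨y, hy, e⟩ := exists_mem_frontier_infDist_compl_eq_dist m
    (fun h => one_not (h ▸ mem_univ _))
  refine ⟨(isClosed_frontier.notMem_iff_infDist_pos ⟨y, hy⟩).1 fun h => ?_, ?_⟩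
  · rw [D_open.frontier_eq] at h; exact h.2 m
  set w : E := !₂[(Real.exp (-(1 / k ^ 2)) : ℂ), (Real.exp (2 / k) : ℂ), 1] with hw
  have n : w ∈ Dᶜ := fun h => by
    have h2 := h.2 k hk
    have e : ‖mon k w‖ = Real.exp (k ^ 3 * -(1 / k ^ 2) + k ^ 2 * (2 / k)) := by
      rw [norm_mon, Real.exp_add, ← Nat.cast_pow k 3, ← Nat.cast_pow k 2, Real.exp_nat_mul,
        Real.exp_nat_mul]
      simp only [hw, PiLp.toLp_apply, Matrix.cons_val_zero, Matrix.cons_val_one, Matrix.cons_val,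
        Complex.norm_real, Real.norm_eq_abs, abs_of_pos (Real.exp_pos _), norm_one, mul_one,
        Nat.cast_pow]
    rw [e, Real.exp_lt_exp, show (k : ℝ) ^ 3 * -(1 / k ^ 2) + k ^ 2 * (2 / k) = k by
      field_simp; ring] at h2
    exact lt_irrefl _ h2
  refine (infDist_le_dist_of_mem hy).trans (e ▸ (infDist_le_dist_of_mem n).trans ?_)
  rw [EuclideanSpace.dist_eq, Fin.sum_univ_three]
  simp only [hw, pt, PiLp.toLp_apply, Matrix.cons_val_zero, Matrix.cons_val_one, Matrix.cons_val,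
    dist_self, ne_eq, OfNat.ofNat_ne_zero, not_false_eq_true, zero_pow, add_zero,
    Complex.dist_eq, ← Complex.ofReal_sub, Complex.norm_real,
    Real.norm_eq_abs]
  have p : (0 : ℝ) < 1 / (2 * k ^ 4) := by positivity
  have u : Real.exp (-(1 / (k : ℝ) ^ 2)) ≤ 1 := Real.exp_le_one_iff.2 (by
    have : (0 : ℝ) < 1 / k ^ 2 := by positivity
    linarith)
  have v := Real.add_one_le_exp (-(1 / (2 * (k : ℝ) ^ 4)))
  have v1 : Real.exp (-(1 / (2 * (k : ℝ) ^ 4))) ≤ 1 := Real.exp_le_one_iff.2 (by linarith)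
  rw [x1, neg_add, Real.exp_add, Real.sqrt_sq (abs_nonneg _), abs_le]
  have := Real.exp_pos (-(1 / (k : ℝ) ^ 2))
  constructor <;> nlinarith

lemma pt_tend : Tendsto (fun m : ℕ => pt ((m + 1 : ℕ) : ℝ) 1) atTop (𝓝 !₂[1, 1, 1]) := by
  have h : Tendsto (fun m : ℕ => 1 / ((m + 1 : ℕ) : ℝ)) atTop (𝓝 0) := by
    simpa using tendsto_one_div_add_atTop_nhds_zero_nat (𝕜 := ℝ)
  have c : Continuous fun t : ℝ => (!₂[(Real.exp (-(t ^ 2 + t ^ 4 / 2)) : ℂ), (Real.exp (2 * t) : ℂ),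
      1] : E) := by fun_prop
  have := (c.tendsto 0).comp h
  simp only [ne_eq, OfNat.ofNat_ne_zero, not_false_eq_true, zero_pow, zero_div, add_zero, neg_zero,
    Real.exp_zero, Complex.ofReal_one, mul_zero] at this
  refine this.congr fun m => ?_
  simp only [Function.comp, pt, x1]
  congr 5
  · field_simp
  · ring

lemma final : Tendsto (fun m : ℕ => (kob D 0 (pt ((m + 1 : ℕ) : ℝ) 1)).toReal +
    1 / 2 * Real.log (infDist (pt ((m + 1 : ℕ) : ℝ) 1) (frontier D))) atTop atBot := by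
  have h : Tendsto (fun m : ℕ => 1 / 2 * Real.log 12 + -(1 / 2 * Real.log ((m + 1 : ℕ) : ℝ))) atTop
      atBot :=
    tendsto_atBot_add_const_left _ _ (tendsto_neg_atTop_atBot.comp
      ((Real.tendsto_log_atTop.comp (tendsto_natCast_atTop_atTop.comp
        (tendsto_add_atTop_nat 1))).const_mul_atTop (by norm_num)))
  refine tendsto_atBot_mono (fun m => ?_) h
  set k := m + 1
  have k1 : (1 : ℝ) ≤ k := by exact_mod_cast (show 1 ≤ k by omega)
  have a := ENNReal.toReal_le_of_le_ofReal (mul_nonneg (by norm_num) (Real.log_nonneg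
    (by nlinarith [one_le_pow₀ (n := 3) k1]))) (kob_le k (by omega))
  have b := Real.log_le_log (inf_le k (by omega)).1 (inf_le k (by omega)).2
  have e : Real.log (24 * (k : ℝ) ^ 3) + Real.log (1 / (2 * k ^ 4)) = Real.log 12 - Real.log k := by
    rw [← Real.log_mul (by positivity) (by positivity), ← Real.log_div (by positivity) (by positivity)]
    congr 1; field_simp; ring
  linarith

end Pool.Agent.H.MP_3c459d_an
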